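import Pool.Agent.Helper65.RT.Goals

/-!
# Parallel machines with adaptive reads: the evaluation of the polynomials
-/

namespace Pool.Agent.Helper17.RT

open Pool.Agent.Helper65.LinSpace Pool.Agent.Helper28.Ram Finset Pool.Agent.Helper65.RT
open Pool.Agent.Helper28.Ram.Mach (sgz)
open Pool.Agent.Helper65.RT (Mach)
open Pool.Agent.Helper81.Tok3.Mach (addR scaR)

section

variable {m : Pool.Agent.Helper65.RT.Mach} {p : ℕ}

/-- The registers of `s'` are `R`, and above the level `l` the state `s'` is the same as `s`. -/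
structure Up (m : Pool.Agent.Helper65.RT.Mach) (l : ℕ) (s : Pool.Agent.Helper65.RT.Mach.St p)
    (R : ℕ → ZMod p) (s' : Pool.Agent.Helper65.RT.Mach.St p) : Prop where
  hR : s'.R = R
  lev : ∀ k, l + 1 ≤ k → s'.md k = s.md k ∧ s'.nd k = s.nd k ∧ s'.sg k = s.sg k
  rest : ∀ k, l + 1 ≤ k * (m.G + 2) → s'.qa k = s.qa k ∧ s'.sl k = s.sl k

theorem Up.refl (l : ℕ) (s : Pool.Agent.Helper65.RT.Mach.St p) : Up m l s s.R s :=
  ⟨rfl, fun _ _ => ⟨rfl, rfl, rfl⟩, fun _ _ => ⟨rfl, rfl⟩⟩

theorem Up.call {l : ℕ} {s : Pool.Agent.Helper65.RT.Mach.St p} {R : ℕ → ZMod p}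
    {s' : Pool.Agent.Helper65.RT.Mach.St p}
    (h : Up m l s R s') (c i g : ℕ) : Up m l s R (s'.call l c i g) := by
  refine ⟨h.hR, fun k hk => ?_, h.rest⟩
  have hne : k ≠ l := by omega
  simp only [Pool.Agent.Helper65.RT.Mach.St.call, Function.update_of_ne hne]
  exact h.lev k hk

theorem Up.query {l : ℕ} {s : Pool.Agent.Helper65.RT.Mach.St p} {R : ℕ → ZMod p}
    {s' : Pool.Agent.Helper65.RT.Mach.St p}
    (h : Up m l s R s') {k : ℕ} (hk : k * (m.G + 2) ≤ l) (x t : ℕ) :
    Up m l s R (s'.query k x t) := by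
  refine ⟨h.hR, h.lev, fun k' hk' => ?_⟩
  have hne : k' ≠ k := by
    rintro rfl
    omega
  simp only [Pool.Agent.Helper65.RT.Mach.St.query, Function.update_of_ne hne]
  exact h.rest k' hk'

theorem Up.setR {l : ℕ} {s : Pool.Agent.Helper65.RT.Mach.St p} {R : ℕ → ZMod p}
    {s' : Pool.Agent.Helper65.RT.Mach.St p}
    (h : Up m l s R s') (R' : ℕ → ZMod p) :
    Up m l s R' ({ s' with R := R' } : Pool.Agent.Helper65.RT.Mach.St p) :=
  ⟨rfl, h.lev, h.rest⟩

theorem ideal_idle {l : ℕ} {s : Pool.Agent.Helper65.RT.Mach.St p} (h : s.md l = 0) :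
    m.ideal l s = s := by
  cases l with
  | zero =>
    show (if s.md 0 = 1 then _ else _) = _
    rw [if_neg (by omega)]
  | succ l =>
    show (if s.md (l + 1) = 2 ∧ _ then _ else if s.md (l + 1) = 1 ∧ _ then _ else _) = _
    rw [if_neg (by omega), if_neg (by omega)]

theorem ideal_top {l : ℕ} (hl : l % (m.G + 2) = 0) {s : Pool.Agent.Helper65.RT.Mach.St p}
    (hmd : s.md l = 1) (hnd : s.nd l = m.G) :
    m.ideal l s = { s with
      R := addR (m.tg s (l / (m.G + 2))) m.b (fun o => sgz p (s.sg l) *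
        bitZ p (m.T (l / (m.G + 2)) (s.qa (l / (m.G + 2)))) o) s.R } := by
  cases l with
  | zero =>
    show (if s.md 0 = 1 then _ else _) = _
    rw [if_pos hmd, Nat.zero_div]
  | succ l =>
    have h1 : l % (m.G + 2) = m.G + 1 ∧ (l + 1) / (m.G + 2) = l / (m.G + 2) + 1 := by
      obtain ⟨c, hc⟩ := Nat.dvd_of_mod_eq_zero hl
      have hc0 : 0 < c := by
        rcases Nat.eq_zero_or_pos c with h | h
        · subst h
          simp at hc
        · exact h
      obtain ⟨c', rfl⟩ : ∃ c', c = c' + 1 := ⟨c - 1, by omega⟩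
      have hl' : l = (m.G + 2) * c' + (m.G + 1) := by
        have : (m.G + 2) * (c' + 1) = (m.G + 2) * c' + (m.G + 2) := by ring
        omega
      constructor
      · rw [hl', Nat.mul_add_mod, Nat.mod_eq_of_lt (by omega)]
      · rw [hc, Nat.mul_div_cancel_left _ (by omega), hl', Nat.mul_add_div (by omega),
          Nat.div_eq_of_lt (by omega : m.G + 1 < m.G + 2)]
    show (if s.md (l + 1) = 2 ∧ _ then _ else if s.md (l + 1) = 1 ∧ _ then _ else _) = _
    rw [if_neg (by omega), if_pos ⟨hmd, by rw [hnd, h1.1]; omega⟩]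
    rw [hnd, h1.2]
    unfold Pool.Agent.Helper65.RT.Mach.lo Pool.Agent.Helper65.RT.Mach.ln
      Pool.Agent.Helper65.RT.Mach.V Pool.Agent.Helper65.RT.Mach.vn
    simp only [lt_irrefl, if_false]

/-! ### Registers -/

theorem addR_of_not {l n : ℕ} (c : ℕ → ZMod p) (R : ℕ → ZMod p) {j : ℕ}
    (h : ¬ (l ≤ j ∧ j < l + n)) : addR l n c R j = R j := by
  unfold addR
  rw [if_neg h]

theorem addR_zero (l n : ℕ) (R : ℕ → ZMod p) :
    addR l n (fun _ => 0) R = R := by
  funext j
  simp [addR]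

theorem addR_add (l n : ℕ) (c c' : ℕ → ZMod p) (R : ℕ → ZMod p) :
    addR l n c' (addR l n c R) =
      addR l n (fun o => c o + c' o) R := by
  funext j
  simp only [addR]
  split_ifs
  · ring
  · rfl

theorem addR_congr {l n : ℕ} {c c' : ℕ → ZMod p} (h : ∀ o < n, c o = c' o) (R : ℕ → ZMod p) :
    addR l n c R = addR l n c' R := by
  funext j
  simp only [addR]
  split_ifs with hj
  · rw [h _ (by omega)]
  · rfl

/-- The registers when the values `a, …, n - 1` are loaded. -/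
def ld (m : Pool.Agent.Helper65.RT.Mach) (k : ℕ) (c : ZMod p) (Y : ℕ → ZMod p) (a n : ℕ)
    (R : ℕ → ZMod p) (j : ℕ) : ZMod p :=
  if m.yb k ≤ j ∧ j < m.yb k + m.wv then
    c * R j + if m.yb k + a * m.b ≤ j ∧ j < m.yb k + n * m.b then Y (j - m.yb k) else 0
  else R j

theorem ld_start (k : ℕ) (c : ZMod p) (Y R : ℕ → ZMod p) (a : ℕ) :
    ld m k c Y a a R = scaR (m.yb k) m.wv c R := by
  funext j
  unfold ld scaR
  split_ifs with h1 h2
  · exact absurd h2 (by omega)
  · rw [add_zero]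
  · rfl

theorem ld_load (k : ℕ) (c : ZMod p) (R : ℕ → ZMod p) (y : ℕ) {n : ℕ} (hn : n < m.E) :
    addR (m.yb k + n * m.b) m.b
      (fun o => 1 * bitZ p (m.T k (dig (2 ^ m.σ) y n)) o) (ld m k c (m.Y p k y) 0 n R) =
      ld m k c (m.Y p k y) 0 (n + 1) R := by
  have h1 : (n + 1) * m.b ≤ m.wv := Nat.mul_le_mul_right _ hn
  have h2 : (n + 1) * m.b = n * m.b + m.b := by ring
  funext j
  simp only [ld, addR, zero_mul, add_zero]
  by_cases hj : m.yb k + n * m.b ≤ j ∧ j < m.yb k + n * m.b + m.b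
  · rw [if_pos hj, if_pos (by omega), if_neg (by omega), if_pos (by omega), if_pos (by omega)]
    unfold Pool.Agent.Helper65.RT.Mach.Y
    have e : j - m.yb k = n * m.b + (j - (m.yb k + n * m.b)) := by omega
    rw [e, div_eq_block (by omega), mod_eq_block (by omega)]
    ring
  · rw [if_neg hj]
    by_cases h3 : m.yb k ≤ j ∧ j < m.yb k + m.wv
    · rw [if_pos h3, if_pos h3]
      by_cases h4 : m.yb k ≤ j ∧ j < m.yb k + n * m.b
      · rw [if_pos h4, if_pos (by omega)]
      · rw [if_neg h4, if_neg (by omega)]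
    · rw [if_neg h3, if_neg h3]

theorem ld_unload (k : ℕ) (c : ZMod p) (R : ℕ → ZMod p) (y : ℕ) {n : ℕ} (hn : n < m.E) :
    addR (m.yb k + n * m.b) m.b
      (fun o => -1 * bitZ p (m.T k (dig (2 ^ m.σ) y n)) o) (ld m k c (m.Y p k y) n m.E R) =
      ld m k c (m.Y p k y) (n + 1) m.E R := by
  have h1 : (n + 1) * m.b ≤ m.E * m.b := Nat.mul_le_mul_right _ hn
  have h3 : m.wv = m.E * m.b := rfl
  have h2 : (n + 1) * m.b = n * m.b + m.b := by ring
  funext j
  simp only [ld, addR]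
  by_cases hj : m.yb k + n * m.b ≤ j ∧ j < m.yb k + n * m.b + m.b
  · rw [if_pos hj, if_pos (by omega), if_pos (by omega), if_pos (by omega), if_neg (by omega)]
    unfold Pool.Agent.Helper65.RT.Mach.Y
    have e : j - m.yb k = n * m.b + (j - (m.yb k + n * m.b)) := by omega
    rw [e, div_eq_block (by omega), mod_eq_block (by omega)]
    ring
  · rw [if_neg hj]
    by_cases h4 : m.yb k ≤ j ∧ j < m.yb k + m.wv
    · rw [if_pos h4, if_pos h4]
      by_cases h5 : m.yb k + n * m.b ≤ j ∧ j < m.yb k + m.E * m.b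
      · rw [if_pos h5, if_pos (by omega)]
      · rw [if_neg h5, if_neg (by omega)]
    · rw [if_neg h4, if_neg h4]

theorem ld_add (k : ℕ) (c : ZMod p) (Y R f : ℕ → ZMod p) (a n i : ℕ) (hi : i < m.G) :
    addR (m.zb k + i * m.wn) m.wn f (ld m k c Y a n R) =
      ld m k c Y a n (addR (m.zb k + i * m.wn) m.wn f R) := by
  have h1 : (i + 1) * m.wn ≤ m.G * m.wn := Nat.mul_le_mul_right _ hi
  have h2 : (i + 1) * m.wn = i * m.wn + m.wn := by ring
  have h3 : m.yb k = m.zb k + m.G * m.wn := rfl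
  funext j
  simp only [ld, addR]
  by_cases hj : m.zb k + i * m.wn ≤ j ∧ j < m.zb k + i * m.wn + m.wn
  · rw [if_pos hj, if_neg (by omega), if_neg (by omega), if_pos hj]
  · rw [if_neg hj, if_neg hj]

theorem ld_end [Fact p.Prime] (k : ℕ) {c : ZMod p} (hc : c ≠ 0) (Y R : ℕ → ZMod p) (a : ℕ) :
    scaR (m.yb k) m.wv c⁻¹ (ld m k c Y a a R) = R := by
  funext j
  rw [ld_start]
  unfold scaR
  split_ifs with h1
  · field_simp
  · rfl

/-- The variables after the values are loaded. -/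
theorem vars_load {i : ℕ} (hi : i < m.G) (k : ℕ) (c : ZMod p) (Y R : ℕ → ZMod p) {j : ℕ}
    (hj : j < m.nv i) :
    m.vars p i (fun j => ld m k c Y 0 m.E R (m.zb k + j))
      (fun j => ld m k c Y 0 m.E R (m.yb k + j)) j =
    m.vars p i (fun j => R (m.zb k + j)) (fun o => c * R (m.yb k + o) + Y o) j := by
  have h3 : m.yb k = m.zb k + m.G * m.wn := rfl
  have h4 : m.wv = m.E * m.b := rfl
  have h2 : i * m.wn ≤ m.G * m.wn := Nat.mul_le_mul_right _ hi.le
  unfold Pool.Agent.Helper65.RT.Mach.vars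
  split_ifs with h
  · simp only [ld]
    rw [if_neg (by omega)]
  · unfold Pool.Agent.Helper65.RT.Mach.nv at hj
    simp only [ld, zero_mul, add_zero]
    rw [if_pos (by omega), if_pos (by omega), Nat.add_sub_cancel_left]

/-- One operation and the procedure of the level below. -/
def stp (m : Pool.Agent.Helper65.RT.Mach) (l : ℕ) :
    ℕ → Pool.Agent.Helper65.RT.Mach.St p → Pool.Agent.Helper65.RT.Mach.St p :=
  fun j s => m.ideal l (m.op l j s)

theorem cast_ne [Fact p.Prime] {w : ℕ} (hw : w < p - 1) : ((w + 1 : ℕ) : ZMod p) ≠ 0 := by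
  intro h
  rw [ZMod.natCast_eq_zero_iff] at h
  have := Nat.le_of_dvd (by omega) h
  omega

/-- The summands. -/
def fY (m : Pool.Agent.Helper65.RT.Mach) (p k i u y : ℕ) (R : ℕ → ZMod p) (w o : ℕ) : ZMod p :=
  fhat p (m.nv i) (m.F i u y) o (m.vars p i (fun j => R (m.zb k + j))
    fun o => ((w + 1 : ℕ) : ZMod p) * R (m.yb k + o) + m.Y p k y o)

theorem fY_congr {k i : ℕ} (hi : i < m.G) {R R' : ℕ → ZMod p}
    (hX : ∀ j, ¬ (m.zb k + i * m.wn ≤ j ∧ j < m.zb k + i * m.wn + m.wn) → R j = R' j)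
    (u y w o : ℕ) : fY m p k i u y R w o = fY m p k i u y R' w o := by
  have h1 : (i + 1) * m.wn ≤ m.G * m.wn := Nat.mul_le_mul_right _ hi
  have h2 : (i + 1) * m.wn = i * m.wn + m.wn := by ring
  have h3 : m.yb k = m.zb k + m.G * m.wn := rfl
  unfold fY
  apply fhat_congr
  intro j hj
  unfold Pool.Agent.Helper65.RT.Mach.vars
  split_ifs with h
  · exact hX _ (by omega)
  · have h4 := hX (m.yb k + (j - i * m.wn)) (by omega)
    simp only [h4]

/-- The value which is subtracted for the list `y`. -/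
def val (m : Pool.Agent.Helper65.RT.Mach) (p k i u : ℕ) (R : ℕ → ZMod p) (y o : ℕ) : ZMod p :=
  fhat p (m.nv i) (m.F i u y) o (m.vars p i (fun j => R (m.zb k + j)) (m.Y p k y))

theorem val_congr {k i : ℕ} {R R' : ℕ → ZMod p}
    (hX : ∀ j, ¬ (m.zb k + i * m.wn ≤ j ∧ j < m.zb k + i * m.wn + m.wn) → R j = R' j)
    (u y o : ℕ) : val m p k i u R y o = val m p k i u R' y o := by
  unfold val
  apply fhat_congr
  intro j hj
  unfold Pool.Agent.Helper65.RT.Mach.vars
  split_ifs with h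
  · exact hX _ (by omega)
  · rfl

/-- The index of an operation. -/
theorem opY_eq {l k : ℕ} (hl : l % (m.G + 2) = 0) (hk : l / (m.G + 2) = k)
    {s : Pool.Agent.Helper65.RT.Mach.St p}
    (hmd : s.md (l + 1) = 2) (hnd : s.nd (l + 1) < m.G) {R : ℕ → ZMod p}
    {s' : Pool.Agent.Helper65.RT.Mach.St p} (h : Up m l s R s') {y w t : ℕ} (hw : w < p - 1)
    (ht : t < 2 * m.E + 3) :
    m.op l ((y * (p - 1) + w) * (2 * m.E + 3) + t) s' = m.opY l k y (w + 1) t s' := by
  unfold Pool.Agent.Helper65.RT.Mach.op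
  rw [if_pos hl, hk]
  unfold Pool.Agent.Helper65.RT.Mach.opE
  rw [if_pos ⟨by rw [(h.lev _ le_rfl).1]; exact hmd, by rw [(h.lev _ le_rfl).2.1]; exact hnd⟩]
  rw [mod_eq_block ht, div_eq_block ht, mod_eq_block hw, div_eq_block hw]

theorem tg_query {s : Pool.Agent.Helper65.RT.Mach.St p} {k n : ℕ} (hn : n < m.E) (x l c i g : ℕ) :
    m.tg ((s.query k x n).call l c i g) k = m.yb k + n * m.b := by
  unfold Pool.Agent.Helper65.RT.Mach.tg
  simp only [Pool.Agent.Helper65.RT.Mach.St.call, Pool.Agent.Helper65.RT.Mach.St.query,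
    Function.update_self]
  rw [Nat.mod_eq_of_lt hn]

/-- A query with the procedure of the level below. -/
theorem qstep {l k : ℕ} (hl : l % (m.G + 2) = 0) (hk : l / (m.G + 2) = k)
    {s : Pool.Agent.Helper65.RT.Mach.St p} {R : ℕ → ZMod p}
    {s' : Pool.Agent.Helper65.RT.Mach.St p} (h : Up m l s R s') {n : ℕ} (hn : n < m.E) (x g : ℕ) :
    Up m l s (addR (m.yb k + n * m.b) m.b (fun o => sgz p g * bitZ p (m.T k x) o) R)
      (m.ideal l ((s'.query k x n).call l 1 m.G g)) := by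
  have hkl : k * (m.G + 2) = l := by
    rw [← hk]
    exact Nat.div_mul_cancel (Nat.dvd_of_mod_eq_zero hl)
  have h1 : Up m l s R ((s'.query k x n).call l 1 m.G g) := (h.query (by omega) x n).call _ _ _
  have md1 : ((s'.query k x n).call l 1 m.G g).md l = 1 := by
    simp [Pool.Agent.Helper65.RT.Mach.St.call]
  have nd1 : ((s'.query k x n).call l 1 m.G g).nd l = m.G := by
    simp [Pool.Agent.Helper65.RT.Mach.St.call]
  have sg1 : ((s'.query k x n).call l 1 m.G g).sg l = g := by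
    simp [Pool.Agent.Helper65.RT.Mach.St.call]
  have q1 : ((s'.query k x n).call l 1 m.G g).qa k = x := by
    simp [Pool.Agent.Helper65.RT.Mach.St.call, Pool.Agent.Helper65.RT.Mach.St.query]
  rw [ideal_top hl md1 nd1, hk, tg_query hn, sg1, q1, h1.hR]
  exact h1.setR _

/-- The loads. -/
theorem loads {l k : ℕ} (hl : l % (m.G + 2) = 0) (hk : l / (m.G + 2) = k)
    {s : Pool.Agent.Helper65.RT.Mach.St p}
    (hmd : s.md (l + 1) = 2) (hnd : s.nd (l + 1) < m.G) {R : ℕ → ZMod p}
    {s' : Pool.Agent.Helper65.RT.Mach.St p} (h : Up m l s R s') {y w : ℕ} (hw : w < p - 1) :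
    ∀ n ≤ m.E, Up m l s (ld m k ((w + 1 : ℕ) : ZMod p) (m.Y p k y) 0 n R)
      (iter (fun t => stp m l ((y * (p - 1) + w) * (2 * m.E + 3) + t)) (n + 1) s') := by
  intro n
  induction n with
  | zero =>
    intro _
    show Up m l s _ (stp m l ((y * (p - 1) + w) * (2 * m.E + 3) + 0) s')
    unfold stp
    rw [opY_eq hl hk hmd hnd h hw (by omega)]
    unfold Pool.Agent.Helper65.RT.Mach.opY
    rw [if_pos rfl, ideal_idle (by simp [Pool.Agent.Helper65.RT.Mach.St.call]), h.hR, ld_start]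
    exact (h.setR _).call _ _ _
  | succ n ih =>
    intro hn
    have h1 := ih (by omega)
    show Up m l s _ (stp m l ((y * (p - 1) + w) * (2 * m.E + 3) + (n + 1))
      (iter (fun t => stp m l ((y * (p - 1) + w) * (2 * m.E + 3) + t)) (n + 1) s'))
    set s1 := iter (fun t => stp m l ((y * (p - 1) + w) * (2 * m.E + 3) + t)) (n + 1) s' with hs1
    unfold stp
    rw [opY_eq hl hk hmd hnd h1 hw (by omega)]
    unfold Pool.Agent.Helper65.RT.Mach.opY
    rw [if_neg (by omega), if_pos (by omega), Nat.add_sub_cancel,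
      ← ld_load _ _ _ _ (show n < m.E by omega)]
    exact qstep hl hk h1 (show n < m.E by omega) (dig (2 ^ m.σ) y n) 0

/-- The value of the polynomial is added. -/
theorem addv {l k : ℕ} (hl : l % (m.G + 2) = 0) (hk : l / (m.G + 2) = k)
    {s : Pool.Agent.Helper65.RT.Mach.St p}
    (hmd : s.md (l + 1) = 2) (hnd : s.nd (l + 1) < m.G) {R : ℕ → ZMod p}
    {s' : Pool.Agent.Helper65.RT.Mach.St p} (h : Up m l s R s') {y w : ℕ} (hw : w < p - 1) :
    Up m l s (ld m k ((w + 1 : ℕ) : ZMod p) (m.Y p k y) 0 m.E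
      (addR (m.zb k + s.nd (l + 1) * m.wn) m.wn (fun o => sgz p (s.sg (l + 1)) *
        fY m p k (s.nd (l + 1)) (s.qa (k + 1)) y R w o) R))
      (iter (fun t => stp m l ((y * (p - 1) + w) * (2 * m.E + 3) + t)) (m.E + 2) s') := by
  have hkl : k * (m.G + 2) = l := by
    rw [← hk]
    exact Nat.div_mul_cancel (Nat.dvd_of_mod_eq_zero hl)
  have hk1 : l + 1 ≤ (k + 1) * (m.G + 2) := by
    have : (k + 1) * (m.G + 2) = k * (m.G + 2) + (m.G + 2) := by ring
    omega
  have h1 := loads hl hk hmd hnd h hw (y := y) m.E le_rfl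
  show Up m l s _ (stp m l ((y * (p - 1) + w) * (2 * m.E + 3) + (m.E + 1))
      (iter (fun t => stp m l ((y * (p - 1) + w) * (2 * m.E + 3) + t)) (m.E + 1) s'))
  set s1 := iter (fun t => stp m l ((y * (p - 1) + w) * (2 * m.E + 3) + t)) (m.E + 1) s' with hs1
  unfold stp
  rw [opY_eq hl hk hmd hnd h1 hw (by omega)]
  unfold Pool.Agent.Helper65.RT.Mach.opY
  rw [if_neg (by omega), if_neg (by omega), if_pos rfl,
    ideal_idle (by simp [Pool.Agent.Helper65.RT.Mach.St.call]), (h1.lev _ le_rfl).2.1,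
    (h1.lev _ le_rfl).2.2, (h1.rest _ hk1).1, h1.hR]
  have hX : ∀ o, fhat p (m.nv (s.nd (l + 1))) (m.F (s.nd (l + 1)) (s.qa (k + 1)) y) o
      (m.vars p (s.nd (l + 1))
        (fun j => ld m k ((w + 1 : ℕ) : ZMod p) (m.Y p k y) 0 m.E R (m.zb k + j))
        fun j => ld m k ((w + 1 : ℕ) : ZMod p) (m.Y p k y) 0 m.E R (m.yb k + j)) =
      fY m p k (s.nd (l + 1)) (s.qa (k + 1)) y R w o := by
    intro o
    unfold fY
    apply fhat_congr
    intro j hj
    exact vars_load hnd k _ _ R hj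
  simp only [hX]
  rw [ld_add _ _ _ _ _ _ _ _ hnd]
  exact (h1.setR _).call _ _ _

/-- The values are subtracted again. -/
theorem unloads {l k : ℕ} (hl : l % (m.G + 2) = 0) (hk : l / (m.G + 2) = k)
    {s : Pool.Agent.Helper65.RT.Mach.St p}
    (hmd : s.md (l + 1) = 2) (hnd : s.nd (l + 1) < m.G) {R : ℕ → ZMod p}
    {s' : Pool.Agent.Helper65.RT.Mach.St p} {y w : ℕ} (hw : w < p - 1)
    (h : Up m l s (ld m k ((w + 1 : ℕ) : ZMod p) (m.Y p k y) 0 m.E R)
      (iter (fun t => stp m l ((y * (p - 1) + w) * (2 * m.E + 3) + t)) (m.E + 2) s')) :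
    ∀ n ≤ m.E, Up m l s (ld m k ((w + 1 : ℕ) : ZMod p) (m.Y p k y) n m.E R)
      (iter (fun t => stp m l ((y * (p - 1) + w) * (2 * m.E + 3) + t)) (m.E + 2 + n) s') := by
  intro n
  induction n with
  | zero =>
    intro _
    exact h
  | succ n ih =>
    intro hn
    have h1 := ih (by omega)
    show Up m l s _ (stp m l ((y * (p - 1) + w) * (2 * m.E + 3) + (m.E + 2 + n))
      (iter (fun t => stp m l ((y * (p - 1) + w) * (2 * m.E + 3) + t)) (m.E + 2 + n) s'))
    set s1 := iter (fun t => stp m l ((y * (p - 1) + w) * (2 * m.E + 3) + t)) (m.E + 2 + n) s'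
      with hs1
    unfold stp
    rw [opY_eq hl hk hmd hnd h1 hw (by omega)]
    unfold Pool.Agent.Helper65.RT.Mach.opY
    rw [if_neg (by omega), if_neg (by omega), if_neg (by omega), if_pos (by omega),
      Nat.add_sub_cancel_left, ← ld_unload _ _ _ _ (show n < m.E by omega)]
    exact qstep hl hk h1 (show n < m.E by omega) (dig (2 ^ m.σ) y n) 1

/-- All operations for one list and one factor. -/
theorem block [Fact p.Prime] {l k : ℕ} (hl : l % (m.G + 2) = 0) (hk : l / (m.G + 2) = k)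
    {s : Pool.Agent.Helper65.RT.Mach.St p}
    (hmd : s.md (l + 1) = 2) (hnd : s.nd (l + 1) < m.G) {R : ℕ → ZMod p}
    {s' : Pool.Agent.Helper65.RT.Mach.St p} (h : Up m l s R s') (y : ℕ) {w : ℕ}
    (hw : w < p - 1) :
    Up m l s (addR (m.zb k + s.nd (l + 1) * m.wn) m.wn (fun o => sgz p (s.sg (l + 1)) *
        fY m p k (s.nd (l + 1)) (s.qa (k + 1)) y R w o) R)
      (iter (fun t => stp m l ((y * (p - 1) + w) * (2 * m.E + 3) + t)) (2 * m.E + 3) s') := by
  have h1 := unloads hl hk hmd hnd hw (addv hl hk hmd hnd h (y := y) hw) m.E le_rfl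
  rw [show m.E + 2 + m.E = 2 * m.E + 2 by ring] at h1
  show Up m l s _ (stp m l ((y * (p - 1) + w) * (2 * m.E + 3) + (2 * m.E + 2))
      (iter (fun t => stp m l ((y * (p - 1) + w) * (2 * m.E + 3) + t)) (2 * m.E + 2) s'))
  set s1 := iter (fun t => stp m l ((y * (p - 1) + w) * (2 * m.E + 3) + t)) (2 * m.E + 2) s'
    with hs1
  unfold stp
  rw [opY_eq hl hk hmd hnd h1 hw (by omega)]
  unfold Pool.Agent.Helper65.RT.Mach.opY
  rw [if_neg (by omega), if_neg (by omega), if_neg (by omega), if_neg (by omega),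
    ideal_idle (by simp [Pool.Agent.Helper65.RT.Mach.St.call]), h1.hR, ld_end _ (cast_ne hw)]
  exact (h1.setR _).call _ _ _

/-- All factors for one list. -/
theorem facs [Fact p.Prime] {l k : ℕ} (hl : l % (m.G + 2) = 0) (hk : l / (m.G + 2) = k)
    {s : Pool.Agent.Helper65.RT.Mach.St p}
    (hmd : s.md (l + 1) = 2) (hnd : s.nd (l + 1) < m.G) {R : ℕ → ZMod p}
    {s' : Pool.Agent.Helper65.RT.Mach.St p} (h : Up m l s R s') (y : ℕ) : ∀ w ≤ p - 1,
    Up m l s (addR (m.zb k + s.nd (l + 1) * m.wn) m.wn (fun o => sgz p (s.sg (l + 1)) *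
        ∑ w' ∈ range w, fY m p k (s.nd (l + 1)) (s.qa (k + 1)) y R w' o) R)
      (iter (fun w => iter (fun t => stp m l ((y * (p - 1) + w) * (2 * m.E + 3) + t))
        (2 * m.E + 3)) w s') := by
  intro w
  induction w with
  | zero =>
    intro _
    rw [addR_congr (c' := fun _ => 0) (fun o _ => by simp), addR_zero]
    exact h
  | succ w ih =>
    intro hw
    have h1 := block hl hk hmd hnd (ih (by omega)) y (w := w) (by omega)
    rw [addR_add] at h1
    have e : ∀ R' : ℕ → ZMod p, (∀ j, ¬ (m.zb k + s.nd (l + 1) * m.wn ≤ j ∧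
        j < m.zb k + s.nd (l + 1) * m.wn + m.wn) → R' j = R j) →
        (fun o => sgz p (s.sg (l + 1)) *
          ∑ w' ∈ range w, fY m p k (s.nd (l + 1)) (s.qa (k + 1)) y R w' o +
        sgz p (s.sg (l + 1)) * fY m p k (s.nd (l + 1)) (s.qa (k + 1)) y R' w o) =
        fun o => sgz p (s.sg (l + 1)) *
          ∑ w' ∈ range (w + 1), fY m p k (s.nd (l + 1)) (s.qa (k + 1)) y R w' o := by
      intro R' hR'
      funext o
      rw [fY_congr hnd hR' _ _ w o, sum_range_succ]
      ring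
    rw [e _ (fun j hj => addR_of_not _ _ hj)] at h1
    exact h1

/-- All lists. -/
theorem lists (hIN : Pool.Agent.Helper65.RT.INNER_stmt) [Fact p.Prime] {l k : ℕ} (hl : l % (m.G + 2) = 0)
    (hk : l / (m.G + 2) = k) {s : Pool.Agent.Helper65.RT.Mach.St p}
    (hmd : s.md (l + 1) = 2) (hnd : s.nd (l + 1) < m.G)
    (hN : m.nv (s.nd (l + 1)) < p - 1) : ∀ n : ℕ,
    Up m l s (addR (m.zb k + s.nd (l + 1) * m.wn) m.wn (fun o => -(sgz p (s.sg (l + 1)) *
        ∑ y ∈ range n, val m p k (s.nd (l + 1)) (s.qa (k + 1)) s.R y o)) s.R)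
      (iter (fun y => iter (fun w => iter
        (fun t => stp m l ((y * (p - 1) + w) * (2 * m.E + 3) + t))
          (2 * m.E + 3)) (p - 1)) n s) := by
  intro n
  induction n with
  | zero =>
    rw [addR_congr (c' := fun _ => 0) (fun o _ => by simp), addR_zero]
    exact Up.refl l s
  | succ n ih =>
    have h1 := facs hl hk hmd hnd ih n (p - 1) le_rfl
    rw [addR_add] at h1
    have e : ∀ R' : ℕ → ZMod p, (∀ j, ¬ (m.zb k + s.nd (l + 1) * m.wn ≤ j ∧
        j < m.zb k + s.nd (l + 1) * m.wn + m.wn) → R' j = s.R j) →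
        (fun o => -(sgz p (s.sg (l + 1)) *
          ∑ y ∈ range n, val m p k (s.nd (l + 1)) (s.qa (k + 1)) s.R y o) +
        sgz p (s.sg (l + 1)) *
          ∑ w ∈ range (p - 1), fY m p k (s.nd (l + 1)) (s.qa (k + 1)) n R' w o) =
        fun o => -(sgz p (s.sg (l + 1)) *
          ∑ y ∈ range (n + 1), val m p k (s.nd (l + 1)) (s.qa (k + 1)) s.R y o) := by
      intro R' hR'
      funext o
      have h2 := hIN m p (m.nv (s.nd (l + 1))) (s.nd (l + 1)) o
        (m.F (s.nd (l + 1)) (s.qa (k + 1)) n) (fun j => R' (m.zb k + j))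
        (fun o => R' (m.yb k + o)) (m.Y p k n) hN
      have h3 : ∑ w ∈ range (p - 1), fY m p k (s.nd (l + 1)) (s.qa (k + 1)) n R' w o =
          -val m p k (s.nd (l + 1)) (s.qa (k + 1)) s.R n o := by
        rw [← val_congr hR']
        exact h2
      rw [h3, sum_range_succ]
      ring
    rw [e _ (fun j hj => addR_of_not _ _ hj)] at h1
    exact h1

/-! ### Idle operations -/

theorem idle {l : ℕ} (hl : l % (m.G + 2) = 0) {s : Pool.Agent.Helper65.RT.Mach.St p} {n₀ : ℕ}
    (hn : ¬ (s.md (l + 1) = 2 ∧ s.nd (l + 1) ≤ m.G) ∨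
      (s.nd (l + 1) = m.G ∧ 0 < n₀)) {R : ℕ → ZMod p}
    {s' : Pool.Agent.Helper65.RT.Mach.St p} (h : Up m l s R s') : ∀ n : ℕ,
    Up m l s R (iter (fun j => stp m l (n₀ + j)) n s') := by
  intro n
  induction n with
  | zero => exact h
  | succ n ih =>
    set s1 := iter (fun j => stp m l (n₀ + j)) n s' with hs1
    show Up m l s R (stp m l (n₀ + n) s1)
    have e1 : m.op l (n₀ + n) s1 = s1.call l 0 0 0 := by
      unfold Pool.Agent.Helper65.RT.Mach.op
      rw [if_pos hl]
      unfold Pool.Agent.Helper65.RT.Mach.opE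
      rw [(ih.lev _ le_rfl).1, (ih.lev _ le_rfl).2.1]
      rcases hn with hn | hn
      · rw [if_neg (by intro h0; exact hn ⟨h0.1, by omega⟩),
          if_neg (by intro h0; exact hn ⟨h0.1, by omega⟩)]
      · rw [if_neg (by omega), if_neg (by omega)]
    unfold stp
    rw [e1, ideal_idle (by simp [Pool.Agent.Helper65.RT.Mach.St.call])]
    exact ih.call _ _ _

theorem Up.agree {l : ℕ} {s : Pool.Agent.Helper65.RT.Mach.St p} {R : ℕ → ZMod p}
    {s' : Pool.Agent.Helper65.RT.Mach.St p}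
    (h : Up m l s R s') : m.Agree (l + 1) s' { s with R := R } :=
  ⟨h.hR, h.lev, h.rest⟩

theorem nv_mono {i j : ℕ} (h : i ≤ j) : m.nv i ≤ m.nv j := by
  unfold Pool.Agent.Helper65.RT.Mach.nv
  have := Nat.mul_le_mul_right m.wn h
  omega

end

/-- ELEV. -/
theorem elev (hI : Pool.Agent.Helper65.RT.INNER_stmt) : Pool.Agent.Helper65.RT.ELEV_stmt := by
  intro m p _ hm hNG l hl s
  have e0 : (fun j s => m.ideal l (m.op l j s)) = stp (p := p) m l := rfl
  rw [e0]
  have hp2 : 2 ≤ p := (Fact.out : p.Prime).two_le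
  have e1 : m.cnt p l = 2 ^ (m.σ * m.E) * (p - 1) * (2 * m.E + 3) := by
    unfold Pool.Agent.Helper65.RT.Mach.cnt
    rw [hl, ifz_zero]
  by_cases hn : s.md (l + 1) = 2 ∧ s.nd (l + 1) ≤ m.G
  · have e2 : m.ideal (l + 1) s = { s with
        R := addR (m.lo s (l / (m.G + 2)) (s.nd (l + 1))) (m.ln (s.nd (l + 1))) (fun o =>
          -(sgz p (s.sg (l + 1)) * m.P p (l / (m.G + 2)) (s.nd (l + 1))
            (s.qa (l / (m.G + 2) + 1)) (fun j => s.R (m.zb (l / (m.G + 2)) + j)) o)) s.R } := by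
      show (if s.md (l + 1) = 2 ∧ _ then _ else _) = _
      rw [if_pos hn]
    rw [e2]
    set k := l / (m.G + 2) with hk
    by_cases hG : s.nd (l + 1) < m.G
    · have hN : m.nv (s.nd (l + 1)) < p - 1 := lt_of_le_of_lt (nv_mono (by omega)) hNG
      have h1 := (lists hI hl hk.symm hn.1 hG hN (2 ^ (m.σ * m.E))).agree
      rw [e1, iter_mul, iter_mul]
      have e3 : ∀ o, ∑ y ∈ range (2 ^ (m.σ * m.E)),
          val m p k (s.nd (l + 1)) (s.qa (k + 1)) s.R y o =
          m.P p k (s.nd (l + 1)) (s.qa (k + 1)) (fun j => s.R (m.zb k + j)) o := by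
        intro o
        unfold Pool.Agent.Helper65.RT.Mach.P
        rw [if_pos hG]
        rfl
      have e4 : m.lo s k (s.nd (l + 1)) = m.zb k + s.nd (l + 1) * m.wn := by
        unfold Pool.Agent.Helper65.RT.Mach.lo
        rw [if_pos hG]
      have e5 : m.ln (s.nd (l + 1)) = m.wn := by
        unfold Pool.Agent.Helper65.RT.Mach.ln
        rw [if_pos hG]
      simp only [e3] at h1
      rw [e4, e5]
      exact h1
    · have hG' : s.nd (l + 1) = m.G := by omega
      have hcnt : 1 ≤ m.cnt p l := by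
        rw [e1]
        have h2 : 0 < 2 ^ (m.σ * m.E) := Nat.two_pow_pos _
        have h3 : 0 < p - 1 := by omega
        have h4 : 0 < 2 * m.E + 3 := by omega
        exact Nat.mul_pos (Nat.mul_pos h2 h3) h4
      obtain ⟨d, hd'⟩ := Nat.exists_eq_add_of_le hcnt
      rw [hd', iter_add]
      have h0 : Up m l s (addR (m.lo s k (s.nd (l + 1))) (m.ln (s.nd (l + 1))) (fun o =>
          -(sgz p (s.sg (l + 1)) * m.P p k (s.nd (l + 1))
            (s.qa (k + 1)) (fun j => s.R (m.zb k + j)) o)) s.R) (iter (stp m l) 1 s) := by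
        show Up m l s _ (stp m l 0 s)
        unfold stp
        have e6 : m.op l 0 s = ({ s with
            R := addR (m.tg s (k + 1)) m.b (fun o => -(sgz p (s.sg (l + 1)) *
              fhat p (m.G * m.wn) (m.o (s.qa (k + 1))) o fun j => s.R (m.zb k + j))) s.R } :
            Pool.Agent.Helper65.RT.Mach.St p).call l 0 0 0 := by
          unfold Pool.Agent.Helper65.RT.Mach.op
          rw [if_pos hl]
          unfold Pool.Agent.Helper65.RT.Mach.opE
          rw [if_neg (by omega), if_pos ⟨hn.1, hG', rfl⟩]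
        rw [e6, ideal_idle (by simp [Pool.Agent.Helper65.RT.Mach.St.call])]
        have e4 : m.lo s k (s.nd (l + 1)) = m.tg s (k + 1) := by
          unfold Pool.Agent.Helper65.RT.Mach.lo
          rw [if_neg (by omega)]
        have e5 : m.ln (s.nd (l + 1)) = m.b := by
          unfold Pool.Agent.Helper65.RT.Mach.ln
          rw [if_neg (by omega)]
        have e7 : ∀ o, m.P p k (s.nd (l + 1)) (s.qa (k + 1)) (fun j => s.R (m.zb k + j)) o =
            fhat p (m.G * m.wn) (m.o (s.qa (k + 1))) o fun j => s.R (m.zb k + j) := by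
          intro o
          unfold Pool.Agent.Helper65.RT.Mach.P
          rw [if_neg (by omega)]
        simp only [e7]
        rw [e4, e5]
        exact ((Up.refl l s).setR _).call _ _ _
      exact (idle hl (Or.inr ⟨hG', Nat.one_pos⟩) h0 d).agree
  · have e2 : m.ideal (l + 1) s = s := by
      show (if s.md (l + 1) = 2 ∧ _ then _ else if s.md (l + 1) = 1 ∧ _ then _ else _) = _
      rw [if_neg hn, if_neg]
      rw [hl]
      omega
    rw [e2]
    have h1 := (idle (n₀ := 0) hl (Or.inl hn) (Up.refl l s) (m.cnt p l)).agree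
    have e3 : (fun j => stp (p := p) m l (0 + j)) = stp m l := by
      funext j
      rw [Nat.zero_add]
    rw [e3] at h1
    exact h1

end Pool.Agent.Helper17.RT
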